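import Mathlib
import Pool.Agent.H63.CB.Main

set_option autoImplicit false

namespace Pool.Agent.Results.MP_05d054_an.DimensionSpectrum

open Filter Topology Set MeasureTheory
open scoped ENNReal NNReal

/-- `K`: the boundary of the unit cube `[0,1]^n`, i.e. the union of its `(n-1)`-dimensional faces. -/
def cubeBoundary (n : ℕ) : Set (EuclideanSpace ℝ (Fin n)) :=
  {x | (∀ i, x i ∈ Icc (0 : ℝ) 1) ∧ ∃ i, x i = 0 ∨ x i = 1}

/-- `G = T(f)`: the union over `t ∈ (0,1)` of the sets `t K + f(t)`. -/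
def packing {n : ℕ} (f : Ioo (0 : ℝ) 1 → EuclideanSpace ℝ (Fin n)) : Set (EuclideanSpace ℝ (Fin n)) :=
  ⋃ t : Ioo (0 : ℝ) 1, (fun y => (t : ℝ) • y + f t) '' cubeBoundary n

/-- Upper box-counting dimension: `limsup` as `δ → 0+` of `log N_δ(A) / log (1/δ)`, where `N_δ(A)` is the
minimal number of closed balls of radius `δ` covering `A`. -/
noncomputable def upperBoxDim {X : Type*} [PseudoEMetricSpace X] (A : Set X) : EReal :=
  limsup (fun δ : ℝ≥0 => ENNReal.log ((Metric.externalCoveringNumber δ A : ℕ∞) : ℝ≥0∞) /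
    ((Real.log (1 / (δ : ℝ)) : ℝ) : EReal)) (𝓝[>] (0 : ℝ≥0))

/-- Packing dimension, in its usual form as modified upper box-counting dimension: the infimum over
all countable covers `A ⊆ ⋃ i, s i` of the supremum of the upper box-counting dimensions of the
sets `s i`. -/
noncomputable def packDim {X : Type*} [PseudoEMetricSpace X] (A : Set X) : EReal :=
  ⨅ (s : ℕ → Set X) (_ : A ⊆ ⋃ i, s i), ⨆ i, upperBoxDim (s i)

/-- `f` is a size cube packing: a map from `(0,1)` to `[0,1]^n`. -/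
def IsSizeCubePacking {n : ℕ} (f : Ioo (0 : ℝ) 1 → EuclideanSpace ℝ (Fin n)) : Prop :=
  ∀ t i, f t i ∈ Icc (0 : ℝ) 1

/-- Let `n ≥ 1`. For every size cube packing `f : (0,1) → [0,1]^n`, with `G = T(f)`,
`dim_H G + upper box dim G ≥ 2 n - 1`. Moreover `n - 1 ≤ dim_H G ≤ dim_P G ≤ upper box dim G ≤ n`
and `dim_H G + dim_P G ≥ 2 n - 1`, and there are no other restrictions: for real numbers
`h, p, b` there is a size cube packing with `dim_H G = h`, `dim_P G = p` and upper box dimension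
`b` if and only if `n - 1 ≤ h ≤ p ≤ b ≤ n` and `h + p ≥ 2 n - 1`. -/
theorem result (n : ℕ) (hn : 1 ≤ n) :
    (∀ f : Ioo (0 : ℝ) 1 → EuclideanSpace ℝ (Fin n), (∀ t i, f t i ∈ Icc (0 : ℝ) 1) →
      ((2 * (n : ℝ) - 1 : ℝ) : EReal) ≤
        ((dimH (packing f) : ℝ≥0∞) : EReal) + upperBoxDim (packing f)) ∧
    (∀ f : Ioo (0 : ℝ) 1 → EuclideanSpace ℝ (Fin n), IsSizeCubePacking f →
      (((n : ℝ) - 1 : ℝ) : EReal) ≤ ((dimH (packing f) : ℝ≥0∞) : EReal) ∧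
      ((dimH (packing f) : ℝ≥0∞) : EReal) ≤ packDim (packing f) ∧
      packDim (packing f) ≤ upperBoxDim (packing f) ∧
      upperBoxDim (packing f) ≤ ((n : ℝ) : EReal) ∧
      ((2 * (n : ℝ) - 1 : ℝ) : EReal) ≤
        ((dimH (packing f) : ℝ≥0∞) : EReal) + packDim (packing f)) ∧
    (∀ h p b : ℝ,
      (∃ f : Ioo (0 : ℝ) 1 → EuclideanSpace ℝ (Fin n), IsSizeCubePacking f ∧
        ((dimH (packing f) : ℝ≥0∞) : EReal) = (h : EReal) ∧
        packDim (packing f) = (p : EReal) ∧ upperBoxDim (packing f) = (b : EReal)) ↔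
      ((n : ℝ) - 1 ≤ h ∧ h ≤ p ∧ p ≤ b ∧ b ≤ n ∧ 2 * (n : ℝ) - 1 ≤ h + p)) := by
  obtain ⟨m, rfl⟩ : ∃ m, n = m + 1 := ⟨n - 1, by omega⟩
  have e1 : (((m + 1 : ℕ) : ℝ) - 1 : ℝ) = (m : ℝ) := by push_cast; ring
  have e2 : (2 * ((m + 1 : ℕ) : ℝ) - 1 : ℝ) = 2 * (m : ℝ) + 1 := by push_cast; ring
  have e3 : (((m + 1 : ℕ) : ℝ) : ℝ) = (m : ℝ) + 1 := by push_cast; ring
  have hgen : ∀ f : Ioo (0 : ℝ) 1 → EuclideanSpace ℝ (Fin (m + 1)), IsSizeCubePacking f →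
      ((m : ℝ) : EReal) ≤ ((dimH (packing f) : ℝ≥0∞) : EReal) ∧
      ((dimH (packing f) : ℝ≥0∞) : EReal) ≤ packDim (packing f) ∧
      packDim (packing f) ≤ upperBoxDim (packing f) ∧
      upperBoxDim (packing f) ≤ (((m : ℝ) + 1 : ℝ) : EReal) ∧
      ((2 * (m : ℝ) + 1 : ℝ) : EReal) ≤
        ((dimH (packing f) : ℝ≥0∞) : EReal) + packDim (packing f) :=
    fun f hf => Pool.Agent.H63.CB.general f hf
  have hcon : ∀ {h p b : ℝ}, 0 ≤ h → h ≤ p → p ≤ b → b ≤ 1 → 1 ≤ h + p →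
      ∃ f : Ioo (0 : ℝ) 1 → EuclideanSpace ℝ (Fin (m + 1)), IsSizeCubePacking f ∧
        ((dimH (packing f) : ℝ≥0∞) : EReal) = (((m : ℝ) + h : ℝ) : EReal) ∧
        packDim (packing f) = (((m : ℝ) + p : ℝ) : EReal) ∧
        upperBoxDim (packing f) = (((m : ℝ) + b : ℝ) : EReal) :=
    fun h1 h2 h3 h4 h5 => Pool.Agent.H63.CB.construct m h1 h2 h3 h4 h5
  rw [e1, e2, e3]
  refine ⟨fun f hf => ?_, hgen, fun h p b => ⟨?_, ?_⟩⟩
  · obtain ⟨_, _, h3, _, h5⟩ := hgen f hf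
    refine h5.trans ?_
    gcongr
  · rintro ⟨f, hf, rh, rp, rb⟩
    obtain ⟨h1, h2, h3, h4, h5⟩ := hgen f hf
    rw [rh, rp, ← EReal.coe_add] at h5
    rw [rb] at h4
    rw [rp, rb] at h3
    rw [rh, rp] at h2
    rw [rh] at h1
    exact ⟨by exact_mod_cast h1, by exact_mod_cast h2, by exact_mod_cast h3,
      by exact_mod_cast h4, by exact_mod_cast h5⟩
  · rintro ⟨h1, h2, h3, h4, h5⟩
    obtain ⟨f, hf, rh, rp, rb⟩ := hcon (h := h - m) (p := p - m) (b := b - m) (by linarith)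
      (by linarith) (by linarith) (by linarith) (by linarith)
    rw [add_sub_cancel] at rh rp rb
    exact ⟨f, hf, rh, rp, rb⟩

end Pool.Agent.Results.MP_05d054_an.DimensionSpectrum
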